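import Pool.Agent.H7.GY.Stmts

/-! Row NYA of the board gy11 (MP_fd41b2_co). -/

set_option autoImplicit false

namespace Pool.GY7

open Pool.Agent.H23.KT Pool.Agent.H46.KW Pool.KQ Pool.GT7 Pool.GU7 Pool.GV7

namespace NYAx

/-- If `(w+3) ρ^(w+1) ≤ 1 < (w+3) c^(w+1)` then `ρ ≤ c`. -/
theorem le_c (w : ℕ) (ρ c : ℝ) (hc : 0 ≤ c) (h1 : ((w : ℝ) + 3) * ρ ^ (w + 1) ≤ 1)
    (h2 : 1 < ((w : ℝ) + 3) * c ^ (w + 1)) : ρ ≤ c := by
  by_contra h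
  push Not at h
  have h3 : c ^ (w + 1) ≤ ρ ^ (w + 1) := pow_le_pow_left₀ hc h.le (w + 1)
  have h4 : (0 : ℝ) ≤ (w : ℝ) + 3 := by positivity
  have h5 := mul_le_mul_of_nonneg_left h3 h4
  linarith

theorem exp_lt : Real.exp (9 / 4) < 10 := by
  have h1 : Real.exp (9 / 4) ^ 4 < (10 : ℝ) ^ 4 := by
    rw [← Real.exp_nat_mul]
    have h2 : ((4 : ℕ) : ℝ) * (9 / 4) = ((9 : ℕ) : ℝ) * 1 := by norm_num
    rw [h2, Real.exp_nat_mul]
    have h3 : Real.exp 1 ^ 9 ≤ (2.7182818286 : ℝ) ^ 9 :=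
      pow_le_pow_left₀ (Real.exp_pos 1).le Real.exp_one_lt_d9.le 9
    have h4 : (2.7182818286 : ℝ) ^ 9 < 10 ^ 4 := by norm_num
    linarith
  exact lt_of_pow_lt_pow_left₀ 4 (by norm_num) h1

theorem exp_neg_le : Real.exp (-(3 / 2)) ≤ 23 / 100 := by
  have h1 : Real.exp (-(3 / 2)) ^ 2 ≤ (23 / 100 : ℝ) ^ 2 := by
    rw [← Real.exp_nat_mul]
    have h2 : ((2 : ℕ) : ℝ) * (-(3 / 2)) = -(((3 : ℕ) : ℝ) * 1) := by norm_num
    rw [h2, Real.exp_neg, Real.exp_nat_mul]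
    have h3 : (2.7182818283 : ℝ) ^ 3 ≤ Real.exp 1 ^ 3 :=
      pow_le_pow_left₀ (by norm_num) Real.exp_one_gt_d9.le 3
    have h4 : (Real.exp 1 ^ 3)⁻¹ ≤ ((2.7182818283 : ℝ) ^ 3)⁻¹ := inv_anti₀ (by norm_num) h3
    have h5 : ((2.7182818283 : ℝ) ^ 3)⁻¹ ≤ (23 / 100) ^ 2 := by norm_num
    linarith
  exact le_of_sq_le_sq' h1
where
  le_of_sq_le_sq' (h : Real.exp (-(3 / 2)) ^ 2 ≤ (23 / 100 : ℝ) ^ 2) :
      Real.exp (-(3 / 2)) ≤ 23 / 100 :=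
    (pow_le_pow_iff_left₀ (Real.exp_pos _).le (by norm_num) (by norm_num)).1 h

theorem big (w : ℕ) (hw : 8 ≤ w) : 1 < ((w : ℝ) + 3) * ((w : ℝ) / (w + 2)) ^ (w + 1) := by
  have hw' : (8 : ℝ) ≤ (w : ℝ) := by exact_mod_cast hw
  have hw0 : (0 : ℝ) < (w : ℝ) := by linarith
  have h1 : (1 + 2 / (w : ℝ)) ^ (w + 1) ≤ Real.exp (9 / 4) := by
    have h2 : 1 + 2 / (w : ℝ) ≤ Real.exp (2 / (w : ℝ)) := by
      have := Real.add_one_le_exp (2 / (w : ℝ))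
      linarith
    have h3 : (1 + 2 / (w : ℝ)) ^ (w + 1) ≤ Real.exp (2 / (w : ℝ)) ^ (w + 1) :=
      pow_le_pow_left₀ (by positivity) h2 (w + 1)
    refine h3.trans ?_
    rw [← Real.exp_nat_mul]
    apply Real.exp_le_exp.2
    push_cast
    have h4 : ((w : ℝ) + 1) * (2 / w) = 2 * (w + 1) / w := by ring
    rw [h4, div_le_div_iff₀ hw0 (by norm_num)]
    linarith
  have h2 : (1 + 2 / (w : ℝ)) ^ (w + 1) < 10 := lt_of_le_of_lt h1 exp_lt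
  have h3 : (w : ℝ) / (w + 2) = (1 + 2 / (w : ℝ))⁻¹ := by
    field_simp
  rw [h3, inv_pow, ← div_eq_mul_inv, one_lt_div (by positivity)]
  linarith

theorem mid (w : ℕ) (h5 : 5 ≤ w) : 1 < ((w : ℝ) + 3) * ((w : ℝ) / (w + 2)) ^ (w + 1) := by
  by_cases hw : 8 ≤ w
  · exact big w hw
  · interval_cases w <;> norm_num

theorem pow_bound (w : ℕ) : (1 - 3 / (2 * ((w : ℝ) + 2))) ^ (w + 2) ≤ Real.exp (-(3 / 2)) := by
  have h0 : (0 : ℝ) < (w : ℝ) + 2 := by positivity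
  have h1 : 1 - 3 / (2 * ((w : ℝ) + 2)) ≤ Real.exp (-(3 / (2 * ((w : ℝ) + 2)))) :=
    Real.one_sub_le_exp_neg _
  have h2 : 0 ≤ 1 - 3 / (2 * ((w : ℝ) + 2)) := by
    rw [sub_nonneg, div_le_one (by positivity)]
    have : (0 : ℝ) ≤ (w : ℝ) := by positivity
    linarith
  refine (pow_le_pow_left₀ h2 h1 (w + 2)).trans ?_
  rw [← Real.exp_nat_mul]
  apply Real.exp_le_exp.2
  push_cast
  apply le_of_eq
  field_simp

theorem fin (w : ℕ) (ρ c : ℝ) (hρ : 0 ≤ ρ) (hc : ρ ≤ c)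
    (h : ((1 + 3 * c) / 4) ^ (w + 2) ≤ 23 / 100) : ((1 + 3 * ρ) / 4) ^ (w + 2) ≤ 23 / 100 := by
  refine (pow_le_pow_left₀ (by positivity) ?_ (w + 2)).trans h
  linarith

end NYAx

theorem NYA_thm : NYAStmt := by
  intro p w r hP
  have hb : (0 : ℝ) < (p : ℝ) + 3 := by positivity
  have hR : ((w : ℝ) + 3) * (r : ℝ) ^ (w + 1) ≤ ((p : ℝ) + 3) ^ (w + 1) := by
    exact_mod_cast hP.R3
  have hR' : ((w : ℝ) + 3) * ((r : ℝ) / ((p : ℝ) + 3)) ^ (w + 1) ≤ 1 := by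
    rw [div_pow, ← mul_div_assoc, div_le_one (by positivity)]
    exact hR
  have hρ : 0 ≤ (r : ℝ) / ((p : ℝ) + 3) := by positivity
  have hy : yY p r = (1 + 3 * ((r : ℝ) / ((p : ℝ) + 3))) / 4 := by
    unfold yY
    field_simp
  rw [hy]
  have h2 := hP.w2
  have key : ∀ c : ℝ, 0 ≤ c → 1 < ((w : ℝ) + 3) * c ^ (w + 1) →
      ((1 + 3 * c) / 4) ^ (w + 2) ≤ 23 / 100 →
      ((1 + 3 * ((r : ℝ) / ((p : ℝ) + 3))) / 4) ^ (w + 2) ≤ 23 / 100 := by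
    intro c hc h3 h4
    exact NYAx.fin w _ c hρ (NYAx.le_c w _ c hc hR' h3) h4
  by_cases h5 : 5 ≤ w
  · refine key ((w : ℝ) / (w + 2)) (by positivity) (NYAx.mid w h5) ?_
    have h6 : (1 + 3 * ((w : ℝ) / (w + 2))) / 4 = 1 - 3 / (2 * ((w : ℝ) + 2)) := by
      have : (w : ℝ) + 2 ≠ 0 := by positivity
      field_simp
      ring
    rw [h6]
    exact (NYAx.pow_bound w).trans NYAx.exp_neg_le
  · have h6 : w = 2 ∨ w = 3 ∨ w = 4 := by omega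
    rcases h6 with rfl | rfl | rfl
    · exact key 0.5849 (by norm_num) (by norm_num) (by norm_num)
    · exact key 0.6390 (by norm_num) (by norm_num) (by norm_num)
    · exact key 0.6777 (by norm_num) (by norm_num) (by norm_num)

end Pool.GY7
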